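import Mathlib

set_option autoImplicit false

namespace Pool.Agent.Results.MP_417677_al.TwoKleinGroups

open scoped commutatorElement

universe u v

/-- A group `G` is integrable if it is isomorphic to the derived subgroup of some group. -/
def IsIntegrable (G : Type u) [Group G] : Prop :=
  ∃ (H : Type u) (_ : Group H), Nonempty (commutator H ≃* G)

/-- The Coxeter diagram of a Coxeter matrix (where the entry `0` stands for infinity): `s` and `t`
are joined by an edge if `m_st ≥ 3` or `m_st = ∞`. -/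
def diagram {B : Type v} (M : CoxeterMatrix B) : SimpleGraph B where
  Adj s t := s ≠ t ∧ (3 ≤ M s t ∨ M s t = 0)
  symm := ⟨fun s t h => by
    rw [M.symmetric t s]
    exact ⟨h.1.symm, h.2⟩⟩
  loopless := ⟨fun s h => h.1 rfl⟩

/-- The Coxeter matrix of the free product of two Klein four groups. -/
def MM : CoxeterMatrix (Fin 4) where
  M := !![1, 2, 0, 0; 2, 1, 0, 0; 0, 0, 1, 2; 0, 0, 2, 1]
  isSymm := by decide
  diagonal := by decide
  off_diagonal := by
    intro i i' h
    fin_cases i <;> fin_cases i' <;> simp_all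

/-- The Coxeter group. -/
abbrev WW : Type := MM.Group

/-- The Coxeter system. -/
def cs : CoxeterSystem MM WW := MM.toCoxeterSystem

/-- The generators. -/
def s (i : Fin 4) : WW := cs.simple i

lemma s_sq (i : Fin 4) : s i * s i = 1 := cs.simple_mul_simple_self i

lemma s_comm {i j : Fin 4} (h : MM i j = 2) : s i * s j = s j * s i := by
  have h1 := cs.simple_mul_simple_pow i j
  rw [h, pow_two] at h1
  have h2 : s i * s j = (s i * s j)⁻¹ := eq_inv_of_mul_eq_one_left h1
  have h3 : ∀ i, (s i)⁻¹ = s i := fun i => cs.inv_simple i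
  rw [h2, mul_inv_rev, h3, h3]

lemma c01 : s 0 * s 1 = s 1 * s 0 := s_comm rfl
lemma c23 : s 2 * s 3 = s 3 * s 2 := s_comm rfl

lemma liftable {K : Type} [Group K] (f : Fin 4 → K) (h1 : ∀ i, f i * f i = 1)
    (h2 : f 0 * f 1 = f 1 * f 0) (h3 : f 2 * f 3 = f 3 * f 2) : MM.IsLiftable f := by
  have key : ∀ a b : K, a * a = 1 → b * b = 1 → a * b = b * a → (a * b) ^ 2 = 1 := by
    intro a b ha hb hab
    rw [pow_two]
    calc a * b * (a * b) = a * b * (b * a) := by rw [← hab]
      _ = a * (b * b) * a := by group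
      _ = 1 := by rw [hb, mul_one, ha]
  intro i j
  fin_cases i <;> fin_cases j
  all_goals first
    | exact pow_zero _
    | (show (f _ * f _) ^ 1 = 1; rw [pow_one]; exact h1 _)
    | exact key _ _ (h1 _) (h1 _) h2
    | exact key _ _ (h1 _) (h1 _) h2.symm
    | exact key _ _ (h1 _) (h1 _) h3
    | exact key _ _ (h1 _) (h1 _) h3.symm

/-- The images of the generators under the automorphism of order three. -/
def f1 : Fin 4 → WW := ![s 1, s 0 * s 1, s 3, s 2 * s 3]

/-- The images of the generators under its inverse. -/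
def f2 : Fin 4 → WW := ![s 0 * s 1, s 0, s 2 * s 3, s 2]

lemma sq01 : s 0 * s 1 * (s 0 * s 1) = 1 := by
  calc s 0 * s 1 * (s 0 * s 1) = s 0 * s 1 * (s 1 * s 0) := by rw [← c01]
    _ = s 0 * (s 1 * s 1) * s 0 := by group
    _ = 1 := by rw [s_sq, mul_one, s_sq]

lemma sq23 : s 2 * s 3 * (s 2 * s 3) = 1 := by
  calc s 2 * s 3 * (s 2 * s 3) = s 2 * s 3 * (s 3 * s 2) := by rw [← c23]
    _ = s 2 * (s 3 * s 3) * s 2 := by group
    _ = 1 := by rw [s_sq, mul_one, s_sq]

lemma l1 : MM.IsLiftable f1 := by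
  apply liftable
  · intro i
    fin_cases i
    · exact s_sq 1
    · exact sq01
    · exact s_sq 3
    · exact sq23
  · show s 1 * (s 0 * s 1) = s 0 * s 1 * s 1
    rw [← mul_assoc, ← c01]
  · show s 3 * (s 2 * s 3) = s 2 * s 3 * s 3
    rw [← mul_assoc, ← c23]

lemma l2 : MM.IsLiftable f2 := by
  apply liftable
  · intro i
    fin_cases i
    · exact sq01
    · exact s_sq 0
    · exact sq23
    · exact s_sq 2
  · show s 0 * s 1 * s 0 = s 0 * (s 0 * s 1)
    rw [mul_assoc, c01]
  · show s 2 * s 3 * s 2 = s 2 * (s 2 * s 3)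
    rw [mul_assoc, c23]

/-- The endomorphism. -/
def F1 : WW →* WW := cs.lift ⟨f1, l1⟩

/-- The inverse endomorphism. -/
def F2 : WW →* WW := cs.lift ⟨f2, l2⟩

lemma F1_s (i : Fin 4) : F1 (s i) = f1 i := cs.lift_apply_simple l1 i
lemma F2_s (i : Fin 4) : F2 (s i) = f2 i := cs.lift_apply_simple l2 i

lemma F12 : F1.comp F2 = MonoidHom.id WW := by
  apply cs.ext_simple
  intro i
  show F1 (F2 (s i)) = s i
  rw [F2_s]
  fin_cases i
  · show F1 (s 0 * s 1) = s 0
    rw [map_mul, F1_s, F1_s]
    show s 1 * (s 0 * s 1) = s 0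
    rw [← mul_assoc, ← c01, mul_assoc, s_sq, mul_one]
  · show F1 (s 0) = s 1
    rw [F1_s]; rfl
  · show F1 (s 2 * s 3) = s 2
    rw [map_mul, F1_s, F1_s]
    show s 3 * (s 2 * s 3) = s 2
    rw [← mul_assoc, ← c23, mul_assoc, s_sq, mul_one]
  · show F1 (s 2) = s 3
    rw [F1_s]; rfl

lemma F21 : F2.comp F1 = MonoidHom.id WW := by
  apply cs.ext_simple
  intro i
  show F2 (F1 (s i)) = s i
  rw [F1_s]
  fin_cases i
  · show F2 (s 1) = s 0
    rw [F2_s]; rfl
  · show F2 (s 0 * s 1) = s 1
    rw [map_mul, F2_s, F2_s]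
    show s 0 * s 1 * s 0 = s 1
    rw [c01, mul_assoc, s_sq, mul_one]
  · show F2 (s 3) = s 2
    rw [F2_s]; rfl
  · show F2 (s 2 * s 3) = s 3
    rw [map_mul, F2_s, F2_s]
    show s 2 * s 3 * s 2 = s 3
    rw [c23, mul_assoc, s_sq, mul_one]

/-- The automorphism. -/
def sigma : MulAut WW := MonoidHom.toMulEquiv F1 F2 F21 F12

lemma sigma_apply (w : WW) : sigma w = F1 w := rfl

/-- The semidirect product with the infinite cyclic group. -/
abbrev HH : Type := WW ⋊[zpowersHom (MulAut WW) sigma] (Multiplicative ℤ)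

lemma sig_mem (w : WW) : (SemidirectProduct.inl (sigma w * w⁻¹) : HH) ∈ commutator HH := by
  have h1 : (SemidirectProduct.inl (sigma w * w⁻¹) : HH) =
      ⁅(SemidirectProduct.inr (Multiplicative.ofAdd 1) : HH), SemidirectProduct.inl w⁆ := by
    rw [commutatorElement_def, map_mul, map_inv, ← map_inv SemidirectProduct.inr,
      ← SemidirectProduct.inl_aut]
    have h2 : (zpowersHom (MulAut WW) sigma) (Multiplicative.ofAdd 1) = sigma := by
      simp [zpowersHom_apply]
    rw [h2]
  rw [h1]
  exact Subgroup.commutator_mem_commutator (Subgroup.mem_top _) (Subgroup.mem_top _)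

lemma s_inv (i : Fin 4) : (s i)⁻¹ = s i := cs.inv_simple i

lemma gen_mem (i : Fin 4) : (SemidirectProduct.inl (s i) : HH) ∈ commutator HH := by
  fin_cases i
  · have h := sig_mem (s 1)
    have h1 : sigma (s 1) * (s 1)⁻¹ = s 0 := by
      rw [sigma_apply, F1_s, s_inv]
      show s 0 * s 1 * s 1 = s 0
      rw [mul_assoc, s_sq, mul_one]
    rwa [h1] at h
  · have h := sig_mem (s 0 * s 1)
    have h1 : sigma (s 0 * s 1) * (s 0 * s 1)⁻¹ = s 1 := by
      rw [sigma_apply, map_mul, F1_s, F1_s, mul_inv_rev, s_inv, s_inv]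
      show s 1 * (s 0 * s 1) * (s 1 * s 0) = s 1
      calc s 1 * (s 0 * s 1) * (s 1 * s 0) = s 1 * s 0 * (s 1 * s 1) * s 0 := by group
        _ = s 1 := by rw [s_sq, mul_one, mul_assoc, s_sq, mul_one]
    rwa [h1] at h
  · have h := sig_mem (s 3)
    have h1 : sigma (s 3) * (s 3)⁻¹ = s 2 := by
      rw [sigma_apply, F1_s, s_inv]
      show s 2 * s 3 * s 3 = s 2
      rw [mul_assoc, s_sq, mul_one]
    rwa [h1] at h
  · have h := sig_mem (s 2 * s 3)
    have h1 : sigma (s 2 * s 3) * (s 2 * s 3)⁻¹ = s 3 := by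
      rw [sigma_apply, map_mul, F1_s, F1_s, mul_inv_rev, s_inv, s_inv]
      show s 3 * (s 2 * s 3) * (s 3 * s 2) = s 3
      calc s 3 * (s 2 * s 3) * (s 3 * s 2) = s 3 * s 2 * (s 3 * s 3) * s 2 := by group
        _ = s 3 := by rw [s_sq, mul_one, mul_assoc, s_sq, mul_one]
    rwa [h1] at h

lemma commutator_eq : commutator HH =
    (SemidirectProduct.inl : WW →* HH).range := by
  apply le_antisymm
  · rw [SemidirectProduct.range_inl_eq_ker_rightHom]
    exact Abelianization.commutator_subset_ker _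
  · rintro _ ⟨w, rfl⟩
    induction w using cs.simple_induction with
    | simple i => exact gen_mem i
    | one => rw [map_one]; exact Subgroup.one_mem _
    | mul a b ha hb => rw [map_mul]; exact Subgroup.mul_mem _ ha hb

/-- There is a Coxeter group with connected Coxeter diagram, not isomorphic to the cyclic group of
order two, which is integrable. -/
theorem result : ∃ (B : Type) (M : CoxeterMatrix B), (diagram M).Connected ∧
    ¬ Nonempty (M.Group ≃* Multiplicative (ZMod 2)) ∧ IsIntegrable M.Group := by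
  refine ⟨Fin 4, MM, ?_, ?_, ?_⟩
  · have hadj : ∀ i j : Fin 4, i ≠ j → MM i j = 0 → (diagram MM).Adj i j :=
      fun i j h1 h2 => ⟨h1, Or.inr h2⟩
    have h02 := (hadj 0 2 (by decide) rfl).reachable
    have h03 := (hadj 0 3 (by decide) rfl).reachable
    have h12 := (hadj 1 2 (by decide) rfl).reachable
    have h0 : ∀ i, (diagram MM).Reachable 0 i := by
      intro i
      fin_cases i
      · exact SimpleGraph.Reachable.refl _
      · exact h02.trans h12.symm
      · exact h02
      · exact h03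
    have : (diagram MM).Preconnected := fun i j => (h0 i).symm.trans (h0 j)
    exact ⟨this⟩
  · rintro ⟨e⟩
    -- a homomorphism onto a group with four elements
    let f : Fin 4 → ℤˣ × ℤˣ := ![(-1, 1), (-1, 1), (1, -1), (1, -1)]
    have hf : MM.IsLiftable f := by
      apply liftable
      · decide
      · decide
      · decide
    let F : WW →* ℤˣ × ℤˣ := cs.lift ⟨f, hf⟩
    have hF : ∀ i, F (s i) = f i := fun i => cs.lift_apply_simple hf i
    have hsurj : Function.Surjective F := by
      have h1 : ∀ y : ℤˣ × ℤˣ, y = 1 ∨ y = f 0 ∨ y = f 2 ∨ y = f 0 * f 2 := by decide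
      intro y
      rcases h1 y with h | h | h | h
      · exact ⟨1, by rw [map_one, h]⟩
      · exact ⟨s 0, by rw [hF, h]⟩
      · exact ⟨s 2, by rw [hF, h]⟩
      · exact ⟨s 0 * s 2, by rw [map_mul, hF, hF, h]⟩
    have hs2 : Function.Surjective (F ∘ e.symm) := hsurj.comp e.symm.surjective
    have h2 := Fintype.card_le_of_surjective _ hs2
    have h3 : Fintype.card (Multiplicative (ZMod 2)) = 2 := ZMod.card 2
    have h4 : Fintype.card (ℤˣ × ℤˣ) = 4 := by decide
    omega
  · exact ⟨HH, inferInstance, ⟨(MulEquiv.subgroupCongr commutator_eq).trans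
      (MonoidHom.ofInjective SemidirectProduct.inl_injective).symm⟩⟩

end Pool.Agent.Results.MP_417677_al.TwoKleinGroups
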